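import Pool.Agent.Lib.MP_6bc78b_nt.MS.P3.H58.EvD

/-! EV: the value of the limit. -/

set_option autoImplicit false

open Complex Filter Topology MeasureTheory Set

namespace Pool.Agent.Lib.MP_6bc78b_nt.MS.P3.H58

/-- The line functional. -/
def HL (th c1 c2 : ℝ) (f : ℝ → ℂ) (v : ℂ) : Prop :=
  Integrable (fun u : ℝ => PH th c1 c2 (ln u) * Complex.exp (th * ln u) * f u) ∧
    ((2 * Real.pi : ℝ) : ℂ)⁻¹ * (∫ u : ℝ, PH th c1 c2 (ln u) * Complex.exp (th * ln u) * f u) = v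

section
variable {th c1 c2 : ℝ} {f g : ℝ → ℂ} {v w : ℂ}

lemma HL.add (hf : HL th c1 c2 f v) (hg : HL th c1 c2 g w) :
    HL th c1 c2 (fun u => f u + g u) (v + w) := by
  have h : (fun u : ℝ => PH th c1 c2 (ln u) * Complex.exp (th * ln u) * (f u + g u)) =
      fun u : ℝ => PH th c1 c2 (ln u) * Complex.exp (th * ln u) * f u +
        PH th c1 c2 (ln u) * Complex.exp (th * ln u) * g u := by
    funext u
    ring
  refine ⟨by rw [h]; exact hf.1.add hg.1, ?_⟩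
  rw [h, integral_add hf.1 hg.1, mul_add, hf.2, hg.2]

lemma HL.smul (c : ℂ) (hf : HL th c1 c2 f v) : HL th c1 c2 (fun u => c * f u) (c * v) := by
  have h : (fun u : ℝ => PH th c1 c2 (ln u) * Complex.exp (th * ln u) * (c * f u)) =
      fun u : ℝ => c * (PH th c1 c2 (ln u) * Complex.exp (th * ln u) * f u) := by
    funext u
    ring
  refine ⟨by rw [h]; exact hf.1.const_mul c, ?_⟩
  rw [h, integral_const_mul, mul_left_comm, hf.2]

lemma HL.congr (hf : HL th c1 c2 f v) (h : ∀ u, f u = g u) : HL th c1 c2 g v := by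
  have : f = g := funext h
  rwa [← this]
end

/-- Value of `K(p, q)`. -/
noncomputable def KV (th : ℝ) (p q : ℕ) : ℝ :=
  th ^ (p + q - 1) / ((Nat.factorial (p - 1) : ℝ) * (Nat.factorial (q - 1) : ℝ) *
    ((p : ℝ) + q - 1))

lemma HLg (th c1 c2 : ℝ) (hth : 0 < th) (p : ℕ) (hp : 1 ≤ p) :
    HL th c1 c2 (fun u => gp th p (ln u))
      ((c1 / th : ℂ) * (KV th p 2 : ℝ) + (2 * c2 / th ^ 2 : ℂ) * (KV th p 3 : ℝ)) := by
  have h2 := (kint th hth p 2 hp (by norm_num)).const_mul (c1 / th : ℂ)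
  have h3 := (kint th hth p 3 hp (by norm_num)).const_mul (2 * c2 / th ^ 2 : ℂ)
  have h : (fun u : ℝ => PH th c1 c2 (ln u) * Complex.exp (th * ln u) * gp th p (ln u)) =
      fun u : ℝ => (c1 / th : ℂ) * (Complex.exp (th * ln u) / ln u ^ 2 * gp th p (ln u)) +
        (2 * c2 / th ^ 2 : ℂ) * (Complex.exp (th * ln u) / ln u ^ 3 * gp th p (ln u)) := by
    funext u
    rw [PH_eq]
    ring
  refine ⟨by rw [h]; exact h2.add h3, ?_⟩
  rw [h, integral_add h2 h3, integral_const_mul, integral_const_mul, mul_add, mul_left_comm,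
    kval th hth p hp 2 (by norm_num), mul_left_comm, kval th hth p hp 3 (by norm_num), KV, KV]

lemma HLwg (th c1 c2 : ℝ) (hth : 0 < th) (p : ℕ) (hp : 1 ≤ p) :
    HL th c1 c2 (fun u => ln u * gp th p (ln u))
      ((c1 / th : ℂ) * (KV th p 1 : ℝ) + (2 * c2 / th ^ 2 : ℂ) * (KV th p 2 : ℝ)) := by
  have h2 := (kint th hth p 1 hp (by norm_num)).const_mul (c1 / th : ℂ)
  have h3 := (kint th hth p 2 hp (by norm_num)).const_mul (2 * c2 / th ^ 2 : ℂ)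
  have h : (fun u : ℝ => PH th c1 c2 (ln u) * Complex.exp (th * ln u) * (ln u * gp th p (ln u))) =
      fun u : ℝ => (c1 / th : ℂ) * (Complex.exp (th * ln u) / ln u ^ 1 * gp th p (ln u)) +
        (2 * c2 / th ^ 2 : ℂ) * (Complex.exp (th * ln u) / ln u ^ 2 * gp th p (ln u)) := by
    funext u
    rw [PH_eq]
    have h0 := ln_ne u
    field_simp
  refine ⟨by rw [h]; exact h2.add h3, ?_⟩
  rw [h, integral_add h2 h3, integral_const_mul, integral_const_mul, mul_add, mul_left_comm,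
    kval th hth p hp 1 (by norm_num), mul_left_comm, kval th hth p hp 2 (by norm_num), KV, KV]

/-- `N_k` in terms of `g_p`. -/
lemma nk_eq (th c1 c2 : ℝ) (hth : 0 < th) {W : ℂ} (hW : 0 ≤ W.re) (k : ℕ) (hk : k ≤ 2) :
    nk th c1 c2 W k = (c1 / th : ℂ) * gp th (3 - k) W +
      (2 * c2 / th ^ 2 : ℂ) * gp th (4 - k) W := by
  have h2 := (gint th (3 - k) (by omega) hW).const_mul (c1 / th : ℂ)
  have h3 := (gint th (4 - k) (by omega) hW).const_mul (2 * c2 / th ^ 2 : ℂ)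
  have h : (fun u : ℝ => PH th c1 c2 (ln u) * Complex.exp (th * ln u) *
      (ln u ^ k / (ln u * (ln u + W)))) =
      fun u : ℝ => (c1 / th : ℂ) * (Complex.exp (th * ln u) / (ln u ^ (3 - k) * (ln u + W))) +
        (2 * c2 / th ^ 2 : ℂ) * (Complex.exp (th * ln u) / (ln u ^ (4 - k) * (ln u + W))) := by
    funext u
    rw [PH_eq]
    have h0 := ln_ne u
    have h1 := lnW_ne hW u
    have e1 : (ln u) ^ k * (ln u) ^ (3 - k) = ln u ^ 3 := by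
      rw [← pow_add]
      congr 1
      omega
    have e2 : (ln u) ^ k * (ln u) ^ (4 - k) = ln u ^ 4 := by
      rw [← pow_add]
      congr 1
      omega
    have e3 : ln u ^ k ≠ 0 := pow_ne_zero _ h0
    have e4 : ln u ^ (3 - k) = ln u ^ 3 / ln u ^ k := by
      rw [eq_div_iff e3, mul_comm, e1]
    have e5 : ln u ^ (4 - k) = ln u ^ 4 / ln u ^ k := by
      rw [eq_div_iff e3, mul_comm, e2]
    rw [e4, e5]
    field_simp
  rw [nk, h, integral_add h2 h3, integral_const_mul, integral_const_mul, gp, gp]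
  ring

lemma ln_re0 (u : ℝ) : 0 ≤ (ln u).re := by
  rw [ln_re]
  norm_num

lemma HLn (th c1 c2 : ℝ) (hth : 0 < th) (k : ℕ) (hk : k ≤ 2) :
    HL th c1 c2 (fun u => nk th c1 c2 (ln u) k)
      ((c1 / th : ℂ) * ((c1 / th : ℂ) * (KV th (3 - k) 2 : ℝ) +
        (2 * c2 / th ^ 2 : ℂ) * (KV th (3 - k) 3 : ℝ)) +
      (2 * c2 / th ^ 2 : ℂ) * ((c1 / th : ℂ) * (KV th (4 - k) 2 : ℝ) +
        (2 * c2 / th ^ 2 : ℂ) * (KV th (4 - k) 3 : ℝ))) :=
  (((HLg th c1 c2 hth (3 - k) (by omega)).smul (c1 / th : ℂ)).add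
    ((HLg th c1 c2 hth (4 - k) (by omega)).smul (2 * c2 / th ^ 2 : ℂ))).congr
    fun u => (nk_eq th c1 c2 hth (ln_re0 u) k hk).symm

lemma HLwn (th c1 c2 : ℝ) (hth : 0 < th) (k : ℕ) (hk : k ≤ 2) :
    HL th c1 c2 (fun u => ln u * nk th c1 c2 (ln u) k)
      ((c1 / th : ℂ) * ((c1 / th : ℂ) * (KV th (3 - k) 1 : ℝ) +
        (2 * c2 / th ^ 2 : ℂ) * (KV th (3 - k) 2 : ℝ)) +
      (2 * c2 / th ^ 2 : ℂ) * ((c1 / th : ℂ) * (KV th (4 - k) 1 : ℝ) +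
        (2 * c2 / th ^ 2 : ℂ) * (KV th (4 - k) 2 : ℝ))) :=
  (((HLwg th c1 c2 hth (3 - k) (by omega)).smul (c1 / th : ℂ)).add
    ((HLwg th c1 c2 hth (4 - k) (by omega)).smul (2 * c2 / th ^ 2 : ℂ))).congr
    fun u => by
      rw [nk_eq th c1 c2 hth (ln_re0 u) k hk]
      ring

theorem ev : EvStatement := by
  intro th c1 c2 hth _
  have n0 := HLn th c1 c2 hth 0 (by norm_num)
  have n1 := HLn th c1 c2 hth 1 (by norm_num)
  have n2 := HLn th c1 c2 hth 2 (by norm_num)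
  have w0 := HLwn th c1 c2 hth 0 (by norm_num)
  have w1 := HLwn th c1 c2 hth 1 (by norm_num)
  have w2 := HLwn th c1 c2 hth 2 (by norm_num)
  set N0 := ((c1 / th : ℂ) * ((c1 / th : ℂ) * (KV th (3 - 0) 2 : ℝ) +
        (2 * c2 / th ^ 2 : ℂ) * (KV th (3 - 0) 3 : ℝ)) +
      (2 * c2 / th ^ 2 : ℂ) * ((c1 / th : ℂ) * (KV th (4 - 0) 2 : ℝ) +
        (2 * c2 / th ^ 2 : ℂ) * (KV th (4 - 0) 3 : ℝ))) with hN0
  set N1 := ((c1 / th : ℂ) * ((c1 / th : ℂ) * (KV th (3 - 1) 2 : ℝ) +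
        (2 * c2 / th ^ 2 : ℂ) * (KV th (3 - 1) 3 : ℝ)) +
      (2 * c2 / th ^ 2 : ℂ) * ((c1 / th : ℂ) * (KV th (4 - 1) 2 : ℝ) +
        (2 * c2 / th ^ 2 : ℂ) * (KV th (4 - 1) 3 : ℝ))) with hN1
  set N2 := ((c1 / th : ℂ) * ((c1 / th : ℂ) * (KV th (3 - 2) 2 : ℝ) +
        (2 * c2 / th ^ 2 : ℂ) * (KV th (3 - 2) 3 : ℝ)) +
      (2 * c2 / th ^ 2 : ℂ) * ((c1 / th : ℂ) * (KV th (4 - 2) 2 : ℝ) +
        (2 * c2 / th ^ 2 : ℂ) * (KV th (4 - 2) 3 : ℝ))) with hN2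
  set W0 := ((c1 / th : ℂ) * ((c1 / th : ℂ) * (KV th (3 - 0) 1 : ℝ) +
        (2 * c2 / th ^ 2 : ℂ) * (KV th (3 - 0) 2 : ℝ)) +
      (2 * c2 / th ^ 2 : ℂ) * ((c1 / th : ℂ) * (KV th (4 - 0) 1 : ℝ) +
        (2 * c2 / th ^ 2 : ℂ) * (KV th (4 - 0) 2 : ℝ))) with hW0
  set W1 := ((c1 / th : ℂ) * ((c1 / th : ℂ) * (KV th (3 - 1) 1 : ℝ) +
        (2 * c2 / th ^ 2 : ℂ) * (KV th (3 - 1) 2 : ℝ)) +
      (2 * c2 / th ^ 2 : ℂ) * ((c1 / th : ℂ) * (KV th (4 - 1) 1 : ℝ) +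
        (2 * c2 / th ^ 2 : ℂ) * (KV th (4 - 1) 2 : ℝ))) with hW1
  set W2 := ((c1 / th : ℂ) * ((c1 / th : ℂ) * (KV th (3 - 2) 1 : ℝ) +
        (2 * c2 / th ^ 2 : ℂ) * (KV th (3 - 2) 2 : ℝ)) +
      (2 * c2 / th ^ 2 : ℂ) * ((c1 / th : ℂ) * (KV th (4 - 2) 1 : ℝ) +
        (2 * c2 / th ^ 2 : ℂ) * (KV th (4 - 2) 2 : ℝ))) with hW2
  have x111 : HL th c1 c2 (fun u => (2 * Real.pi * I)⁻¹ * sqI fun Z => av3 fun A =>
      wA ![1, 1, 1] A * KI th c1 c2 Z A (ln u)) ((-1) * N0 + (-(1 / 2)) * W0 + 1 * N1 +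
      (-(1 / 6)) * N2 + (1 / 3) * W1 + (-(1 / 24)) * W2) := by
    refine ((((((n0.smul (-1)).add (w0.smul (-(1 / 2)))).add (n1.smul 1)).add
      (n2.smul (-(1 / 6)))).add (w1.smul (1 / 3))).add (w2.smul (-(1 / 24)))).congr fun u => ?_
    rw [y111 th c1 c2 hth (ln_re0 u)]
    ring
  have x110 : HL th c1 c2 (fun u => (2 * Real.pi * I)⁻¹ * sqI fun Z => av3 fun A =>
      wA ![1, 1, 0] A * KI th c1 c2 Z A (ln u)) ((-1) * N1 + (-(1 / 2)) * W1 + (1 / 2) * N2 +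
      (1 / 6) * W2) := by
    refine ((((n1.smul (-1)).add (w1.smul (-(1 / 2)))).add (n2.smul (1 / 2))).add
      (w2.smul (1 / 6))).congr fun u => ?_
    rw [y110 th c1 c2 hth (ln_re0 u)]
    ring
  have x010 : HL th c1 c2 (fun u => (2 * Real.pi * I)⁻¹ * sqI fun Z => av3 fun A =>
      wA ![0, 1, 0] A * KI th c1 c2 Z A (ln u)) ((-1) * N2 + (-(1 / 2)) * W2) := by
    refine ((n2.smul (-1)).add (w2.smul (-(1 / 2)))).congr fun u => ?_
    rw [y010 th c1 c2 hth (ln_re0 u)]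
    ring
  rw [XE, XE, XE, x111.2, x110.2, x010.2, hN0, hN1, hN2, hW0, hW1, hW2]
  have h0 : (th : ℂ) ≠ 0 := by exact_mod_cast hth.ne'
  simp only [KV, m2, m1]
  norm_num [Nat.factorial]
  field_simp
  ring

end Pool.Agent.Lib.MP_6bc78b_nt.MS.P3.H58
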