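import Pool.Agent.Lib.MP_6bc78b_nt.MS.P3.Iface
import Pool.Agent.Lib.MP_6bc78b_nt.MS.P3.H28.Per

/-! EV, part A: inverse Laplace transforms on the line `Re = 2`. -/

set_option autoImplicit false

open Complex Filter Topology MeasureTheory Set

namespace Pool.Agent.Lib.MP_6bc78b_nt.MS.P3.H58

lemma ln_def (u : ℝ) : ln u = (2 : ℂ) + u * I := rfl

lemma ln_re (u : ℝ) : (ln u).re = 2 := by simp [ln]

lemma ln_ne (u : ℝ) : ln u ≠ 0 := fun h => by
  have := congrArg Complex.re h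
  rw [ln_re] at this
  simp at this

lemma ln_cont : Continuous ln := by
  unfold ln
  fun_prop

lemma ln_sq (u : ℝ) : ‖ln u‖ ^ 2 = 4 + u ^ 2 := by
  rw [← Complex.normSq_eq_norm_sq, ln]
  simp [Complex.normSq_apply]
  ring

lemma ln_two (u : ℝ) : 2 ≤ ‖ln u‖ := by
  have := Complex.re_le_norm (ln u)
  rwa [ln_re] at this

lemma inv_sq_le (u : ℝ) : (‖ln u‖ ^ 2)⁻¹ ≤ (1 + u ^ 2)⁻¹ := by
  rw [ln_sq]
  apply inv_anti₀ (by positivity)
  linarith [sq_nonneg u]

/-- Integrability from a bound `C/|ln u|^2`. -/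
lemma integ (f : ℝ → ℂ) (hf : Continuous f) (C : ℝ) (h : ∀ u, ‖f u‖ ≤ C * (‖ln u‖ ^ 2)⁻¹) :
    Integrable f := by
  have hC : 0 ≤ C := by
    by_contra hc
    have h1 := h 0
    have h2 : 0 < (‖ln 0‖ ^ 2)⁻¹ := by
      have := ln_two 0
      positivity
    nlinarith [norm_nonneg (f 0)]
  refine (integrable_inv_one_add_sq.const_mul C).mono' hf.aestronglyMeasurable
    (Eventually.of_forall fun u => ?_)
  exact (h u).trans (mul_le_mul_of_nonneg_left (inv_sq_le u) hC)

lemma lnW_ne {W : ℂ} (hW : 0 ≤ W.re) (u : ℝ) : ln u + W ≠ 0 := fun h => by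
  have := congrArg Complex.re h
  rw [add_re, ln_re] at this
  simp at this
  linarith

lemma lnW_two {W : ℂ} (hW : 0 ≤ W.re) (u : ℝ) : 2 ≤ ‖ln u + W‖ := by
  have := Complex.re_le_norm (ln u + W)
  rw [add_re, ln_re] at this
  linarith

/-- `|V| ≤ (1 + |W|) |V + W|`. -/
lemma lnW_le {W : ℂ} (hW : 0 ≤ W.re) (u : ℝ) : ‖ln u‖ ≤ (1 + ‖W‖) * ‖ln u + W‖ := by
  have h1 : ‖ln u‖ ≤ ‖ln u + W‖ + ‖W‖ := by
    have := norm_sub_le (ln u + W) W
    rwa [add_sub_cancel_right] at this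
  have h2 := lnW_two hW u
  nlinarith [norm_nonneg W]

lemma lnW_inv {W : ℂ} (hW : 0 ≤ W.re) (u : ℝ) : ‖ln u + W‖⁻¹ ≤ (1 + ‖W‖) * ‖ln u‖⁻¹ := by
  have h1 := lnW_le hW u
  have h2 := lnW_two hW u
  have h3 := ln_two u
  rw [← div_eq_mul_inv, inv_eq_one_div, div_le_div_iff₀ (by linarith) (by linarith)]
  linarith

lemma exp_norm (x : ℝ) (u : ℝ) : ‖Complex.exp (x * ln u)‖ = Real.exp (2 * x) := by
  rw [Complex.norm_exp]
  congr 1
  simp [ln]
  ring

open FourierTransform in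
/-- Inverse Laplace transform on the line `Re = 2`. -/
theorem lapInv (f : ℝ → ℂ) (hf : Continuous f) (h0 : ∀ t ≤ 0, f t = 0)
    (hint : IntegrableOn (fun t : ℝ => f t * Complex.exp (-(2 * t))) (Ioi 0)) (F : ℂ → ℂ)
    (hF : ∀ u : ℝ, ∫ t in Ioi (0 : ℝ), f t * Complex.exp (-(ln u * t)) = F (ln u))
    (hFi : Integrable (fun u : ℝ => F (ln u))) (x : ℝ) :
    ((2 * Real.pi : ℝ) : ℂ)⁻¹ * ∫ u : ℝ, Complex.exp (x * ln u) * F (ln u) = f x := by
  set h : ℝ → ℂ := fun t => f t * Complex.exp (-(2 * t)) with hh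
  have hc : Continuous h := by
    rw [hh]
    fun_prop
  have hi : Integrable h := by
    have h2 : IntegrableOn h (Iic 0) := by
      have h00 : IntegrableOn (fun _ : ℝ => (0 : ℂ)) (Iic 0) := integrableOn_zero
      refine h00.congr_fun (fun t ht => ?_) measurableSet_Iic
      simp [hh, h0 t (mem_Iic.1 ht)]
    have h3 := h2.union hint
    rwa [Iic_union_Ioi, integrableOn_univ] at h3
  have hFh : 𝓕 h = fun ξ : ℝ => F (ln (2 * Real.pi * ξ)) := by
    funext ξ
    rw [Real.fourier_real_eq_integral_exp_smul, ← hF, ← integral_indicator measurableSet_Ioi]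
    congr 1
    funext t
    by_cases ht : 0 < t
    · rw [indicator_of_mem (mem_Ioi.2 ht), hh, smul_eq_mul]
      simp only
      rw [mul_left_comm, ← Complex.exp_add]
      congr 2
      rw [ln]
      push_cast
      ring
    · rw [indicator_of_notMem (by simpa using ht), hh]
      simp [h0 t (not_lt.1 ht)]
  have h2π : (2 * Real.pi) ≠ 0 := by positivity
  have hFi' : Integrable (𝓕 h) := by
    rw [hFh]
    exact hFi.comp_mul_left' h2π
  have h1 := congrFun (hc.fourierInv_fourier_eq hi hFi') x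
  rw [Real.fourierInv_eq', hFh] at h1
  have h2 : (fun v : ℝ => Complex.exp (((2 * Real.pi * inner ℝ v x : ℝ) : ℂ) * I) •
      (F (ln (2 * Real.pi * v)))) =
      fun v : ℝ => (fun y : ℝ => Complex.exp (x * y * I) * F (ln y)) (2 * Real.pi * v) := by
    funext v
    simp only [smul_eq_mul]
    congr 2
    simp only [RCLike.inner_apply, conj_trivial]
    push_cast
    ring
  rw [h2] at h1
  have h6 := Measure.integral_comp_mul_left (fun y : ℝ => Complex.exp (x * y * I) * F (ln y))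
    (2 * Real.pi)
  replace h1 := h6.symm.trans h1
  rw [abs_of_pos (by positivity : 0 < (2 * Real.pi)⁻¹)] at h1
  have h7 : ∀ u : ℝ, Complex.exp (x * ln u) * F (ln u) =
      Complex.exp (2 * x) * (Complex.exp (x * u * I) * F (ln u)) := by
    intro u
    rw [← mul_assoc, ← Complex.exp_add]
    congr 2
    rw [ln]
    ring
  simp_rw [h7]
  rw [integral_const_mul]
  have h8 : ((2 * Real.pi : ℝ) : ℂ)⁻¹ * ∫ y : ℝ, Complex.exp (x * y * I) * F (ln y) = h x := by
    rw [← h1, Complex.real_smul]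
    push_cast
    ring
  rw [mul_left_comm, h8, hh]
  simp only
  rw [mul_left_comm, ← Complex.exp_add]
  simp

/-- `B(x, k)`. -/
lemma bint (k : ℕ) (hk : 1 ≤ k) (x : ℝ) :
    Integrable (fun u : ℝ => Complex.exp (x * ln u) / ln u ^ (k + 1)) := by
  refine integ _ ?_ (Real.exp (2 * x)) fun u => ?_
  · exact (Complex.continuous_exp.comp (continuous_const.mul ln_cont)).div (ln_cont.pow _)
      fun u => pow_ne_zero _ (ln_ne u)
  · rw [norm_div, exp_norm, norm_pow, div_eq_mul_inv]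
    apply mul_le_mul_of_nonneg_left _ (Real.exp_pos _).le
    apply inv_anti₀ (by have := ln_two u; positivity)
    exact pow_le_pow_right₀ (by linarith [ln_two u]) (by omega)

theorem bval (k : ℕ) (hk : 1 ≤ k) (x : ℝ) :
    ((2 * Real.pi : ℝ) : ℂ)⁻¹ * ∫ u : ℝ, Complex.exp (x * ln u) / ln u ^ (k + 1) =
      (((max x 0) ^ k / (Nat.factorial k : ℝ) : ℝ) : ℂ) := by
  have h := H28.perron (k := k) (by omega) (c := 2) (by norm_num) x
  have hk0 : (k.factorial : ℂ) ≠ 0 := by exact_mod_cast Nat.factorial_ne_zero k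
  have h1 : ∀ u : ℝ, Complex.exp (x * ((2 : ℝ) + u * I)) * ((k.factorial : ℂ) /
      ((2 : ℝ) + u * I) ^ (k + 1)) = (k.factorial : ℂ) *
        (Complex.exp (x * ln u) / ln u ^ (k + 1)) := by
    intro u
    rw [ln]
    push_cast
    ring
  simp_rw [h1] at h
  rw [integral_const_mul] at h
  have h2 : ∫ u : ℝ, Complex.exp (x * ln u) / ln u ^ (k + 1) =
      2 * Real.pi * ((max x 0 : ℝ) : ℂ) ^ k / k.factorial := by
    rw [← h]
    field_simp
  rw [h2]
  push_cast
  have : (Real.pi : ℂ) ≠ 0 := by exact_mod_cast Real.pi_ne_zero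
  field_simp

theorem lap : LapStatement := fun k x hk => ⟨bint k hk x, bval k hk x⟩

end Pool.Agent.Lib.MP_6bc78b_nt.MS.P3.H58
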