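import Pool.Agent.Lib.MP_6bc78b_nt.MS.P3.H58.EvA

/-! EV, part B: the functions `g_p` and the double integrals `K(p, q)`. -/

set_option autoImplicit false

open Complex Filter Topology MeasureTheory Set

namespace Pool.Agent.Lib.MP_6bc78b_nt.MS.P3.H58

/-- `g_p(W) = (2π)⁻¹ ∫ e^{th V} V^{-p}/(V + W)` over the line. -/
noncomputable def gp (th : ℝ) (p : ℕ) (W : ℂ) : ℂ :=
  ((2 * Real.pi : ℝ) : ℂ)⁻¹ * ∫ u : ℝ, Complex.exp (th * ln u) / (ln u ^ p * (ln u + W))

lemma gint (th : ℝ) (p : ℕ) (hp : 1 ≤ p) {W : ℂ} (hW : 0 ≤ W.re) :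
    Integrable (fun u : ℝ => Complex.exp (th * ln u) / (ln u ^ p * (ln u + W))) := by
  refine integ _ ?_ (Real.exp (2 * th) * (1 + ‖W‖)) fun u => ?_
  · exact (Complex.continuous_exp.comp (continuous_const.mul ln_cont)).div
      ((ln_cont.pow _).mul (ln_cont.add continuous_const))
      fun u => mul_ne_zero (pow_ne_zero _ (ln_ne u)) (lnW_ne hW u)
  · rw [norm_div, exp_norm, norm_mul, norm_pow, div_eq_mul_inv, mul_inv, mul_assoc]
    apply mul_le_mul_of_nonneg_left _ (Real.exp_pos _).le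
    have h1 := lnW_inv hW u
    have h2 : (‖ln u‖ ^ p)⁻¹ ≤ ‖ln u‖⁻¹ := by
      apply inv_anti₀ (by linarith [ln_two u])
      calc ‖ln u‖ = ‖ln u‖ ^ 1 := (pow_one _).symm
        _ ≤ ‖ln u‖ ^ p := pow_le_pow_right₀ (by linarith [ln_two u]) hp
    have h3 := ln_two u
    calc (‖ln u‖ ^ p)⁻¹ * ‖ln u + W‖⁻¹ ≤ ‖ln u‖⁻¹ * ((1 + ‖W‖) * ‖ln u‖⁻¹) := by
          apply mul_le_mul h2 h1 (by positivity) (by positivity)
      _ = (1 + ‖W‖) * (‖ln u‖ ^ 2)⁻¹ := by
          rw [sq, mul_inv]
          ring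

/-- The first one. -/
theorem g_one (x : ℝ) {W : ℂ} (hW : 0 < W.re) :
    gp x 1 W = (1 - Complex.exp (-(max x 0 : ℝ) * W)) / W := by
  have hW0 : W ≠ 0 := fun h => by simp [h] at hW
  have key := lapInv (fun t : ℝ => (1 - Complex.exp (-(max t 0 : ℝ) * W)) / W) ?_ ?_ ?_
    (fun V => 1 / (V * (V + W))) ?_ ?_ x
  · rw [gp, ← key]
    congr 2
    funext u
    rw [pow_one]
    ring
  · have : Continuous fun t : ℝ => max t 0 := continuous_id.max continuous_const
    fun_prop
  · intro t ht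
    simp [max_eq_right ht]
  · have h1 : (((-2 : ℂ))).re < 0 := by simp
    have h2 : (-(W + 2)).re < 0 := by
      simp
      linarith
    have h3 := (integrableOn_exp_mul_complex_Ioi h1 0).sub (integrableOn_exp_mul_complex_Ioi h2 0)
    have h4 : IntegrableOn (fun t : ℝ => (Complex.exp (-2 * t) - Complex.exp (-(W + 2) * t)) / W)
        (Ioi 0) := h3.div_const W
    refine h4.congr_fun (fun t ht => ?_) measurableSet_Ioi
    simp only
    rw [max_eq_left (mem_Ioi.1 ht).le, div_mul_eq_mul_div, sub_mul, one_mul, ← Complex.exp_add]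
    congr 3 <;> ring_nf
  · intro u
    have h1 : (-(ln u)).re < 0 := by
      rw [neg_re, ln_re]
      norm_num
    have h2 : (-(W + ln u)).re < 0 := by
      rw [neg_re, add_re, ln_re]
      linarith
    have h3 : ∀ t ∈ Ioi (0 : ℝ), (1 - Complex.exp (-(max t 0 : ℝ) * W)) / W *
        Complex.exp (-(ln u * t)) = (Complex.exp (-(ln u) * t) - Complex.exp (-(W + ln u) * t)) / W := by
      intro t ht
      rw [max_eq_left (mem_Ioi.1 ht).le, div_mul_eq_mul_div, sub_mul, one_mul, ← Complex.exp_add]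
      congr 3 <;> ring_nf
    rw [setIntegral_congr_fun measurableSet_Ioi h3, integral_div, integral_sub
      (integrableOn_exp_mul_complex_Ioi h1 0) (integrableOn_exp_mul_complex_Ioi h2 0),
      integral_exp_mul_complex_Ioi h1, integral_exp_mul_complex_Ioi h2]
    have h4 := ln_ne u
    have h5 := lnW_ne hW.le u
    have h6 : W + ln u ≠ 0 := by rwa [add_comm]
    simp only [ofReal_zero, mul_zero, Complex.exp_zero]
    field_simp
    ring
  · have h := gint 0 1 le_rfl hW.le
    refine h.congr (Eventually.of_forall fun u => ?_)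
    simp

lemma g_succ (th : ℝ) (hth : 0 < th) (p : ℕ) (hp : 1 ≤ p) {W : ℂ} (hW : 0 < W.re) :
    gp th (p + 1) W = ((th ^ p / (Nat.factorial p : ℝ) : ℝ) - gp th p W) / W := by
  have hW0 : W ≠ 0 := fun h => by simp [h] at hW
  have h1 := bval p hp th
  rw [max_eq_left hth.le] at h1
  rw [← h1, gp, gp, ← mul_sub, ← integral_sub (bint p hp th) (gint th p hp hW.le), mul_div_assoc,
    ← integral_div]
  congr 2
  funext u
  have h4 := ln_ne u
  have h5 := lnW_ne hW.le u
  field_simp
  ring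

/-- Continuity and bound of `g_p` on the line. -/
lemma g_reg (th : ℝ) (hth : 0 < th) (p : ℕ) (hp : 1 ≤ p) :
    Continuous (fun u : ℝ => gp th p (ln u)) ∧ ∃ C : ℝ, ∀ u : ℝ, ‖gp th p (ln u)‖ ≤ C * ‖ln u‖⁻¹ := by
  have hre : ∀ u : ℝ, 0 < (ln u).re := fun u => by
    rw [ln_re]
    norm_num
  induction p, hp using Nat.le_induction with
  | base =>
    have h1 : (fun u : ℝ => gp th 1 (ln u)) =
        fun u : ℝ => (1 - Complex.exp (-(th : ℝ) * ln u)) / ln u := by
      funext u
      rw [g_one th (hre u), max_eq_left hth.le]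
    constructor
    · rw [h1]
      exact (continuous_const.sub (Complex.continuous_exp.comp
        (continuous_const.mul ln_cont))).div ln_cont ln_ne
    · refine ⟨2, fun u => ?_⟩
      have h2 := congrFun h1 u
      rw [h2, norm_div, div_eq_mul_inv]
      apply mul_le_mul_of_nonneg_right _ (by positivity)
      refine (norm_sub_le _ _).trans ?_
      rw [norm_one, Complex.norm_exp]
      have : Real.exp ((-(th : ℂ) * ln u).re) ≤ 1 := by
        rw [Real.exp_le_one_iff]
        simp [ln]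
        linarith
      linarith
  | succ p hp ih =>
    obtain ⟨hc, C, hC⟩ := ih
    have h1 : (fun u : ℝ => gp th (p + 1) (ln u)) =
        fun u : ℝ => (((th ^ p / (Nat.factorial p : ℝ) : ℝ) : ℂ) - gp th p (ln u)) / ln u := by
      funext u
      rw [g_succ th hth p hp (hre u)]
    constructor
    · rw [h1]
      exact (continuous_const.sub hc).div ln_cont ln_ne
    · refine ⟨th ^ p / (Nat.factorial p : ℝ) + |C|, fun u => ?_⟩
      have h2 := congrFun h1 u
      rw [h2, norm_div, div_eq_mul_inv]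
      apply mul_le_mul_of_nonneg_right _ (by positivity)
      refine (norm_sub_le _ _).trans ?_
      have h3 : ‖((th ^ p / (Nat.factorial p : ℝ) : ℝ) : ℂ)‖ = th ^ p / (Nat.factorial p : ℝ) := by
        rw [Complex.norm_real, Real.norm_eq_abs, abs_of_nonneg (by positivity)]
      have h4 : ‖ln u‖⁻¹ ≤ 1 := inv_le_one_of_one_le₀ (by linarith [ln_two u])
      have h5 : 0 ≤ ‖ln u‖⁻¹ := by positivity
      have h6 : C * ‖ln u‖⁻¹ ≤ |C| := by
        calc C * ‖ln u‖⁻¹ ≤ |C| * ‖ln u‖⁻¹ := mul_le_mul_of_nonneg_right (le_abs_self C) h5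
          _ ≤ |C| * 1 := mul_le_mul_of_nonneg_left h4 (abs_nonneg C)
          _ = |C| := mul_one _
      linarith [hC u]

/-- The integrand of `K(p, q)`. -/
lemma kint (th : ℝ) (hth : 0 < th) (p q : ℕ) (hp : 1 ≤ p) (hq : 1 ≤ q) :
    Integrable (fun u : ℝ => Complex.exp (th * ln u) / ln u ^ q * gp th p (ln u)) := by
  obtain ⟨hc, C, hC⟩ := g_reg th hth p hp
  have hC0 : 0 ≤ C := by
    by_contra hcn
    have h1 := hC 0
    have h2 : 0 < ‖ln 0‖⁻¹ := by
      have := ln_two 0
      positivity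
    nlinarith [norm_nonneg (gp th p (ln 0))]
  refine integ _ ?_ (Real.exp (2 * th) * C) fun u => ?_
  · exact ((Complex.continuous_exp.comp (continuous_const.mul ln_cont)).div (ln_cont.pow _)
      fun u => pow_ne_zero _ (ln_ne u)).mul hc
  · rw [norm_mul, norm_div, exp_norm, norm_pow, div_eq_mul_inv, mul_assoc, mul_assoc]
    apply mul_le_mul_of_nonneg_left _ (Real.exp_pos _).le
    have h3 := ln_two u
    have h2 : (‖ln u‖ ^ q)⁻¹ ≤ ‖ln u‖⁻¹ := by
      apply inv_anti₀ (by linarith [ln_two u])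
      calc ‖ln u‖ = ‖ln u‖ ^ 1 := (pow_one _).symm
        _ ≤ ‖ln u‖ ^ q := pow_le_pow_right₀ (by linarith [ln_two u]) hq
    calc (‖ln u‖ ^ q)⁻¹ * ‖gp th p (ln u)‖ ≤ ‖ln u‖⁻¹ * (C * ‖ln u‖⁻¹) := by
          apply mul_le_mul h2 (hC u) (by positivity) (by positivity)
      _ = C * (‖ln u‖ ^ 2)⁻¹ := by
          rw [sq, mul_inv]
          ring

/-- `K(p, q)`. -/
theorem kval (th : ℝ) (hth : 0 < th) (p : ℕ) (hp : 1 ≤ p) : ∀ q : ℕ, 1 ≤ q →
    ((2 * Real.pi : ℝ) : ℂ)⁻¹ * ∫ u : ℝ, Complex.exp (th * ln u) / ln u ^ q * gp th p (ln u) =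
      ((th ^ (p + q - 1) / ((Nat.factorial (p - 1) : ℝ) * (Nat.factorial (q - 1) : ℝ) *
        ((p : ℝ) + q - 1)) : ℝ) : ℂ) := by
  have hre : ∀ u : ℝ, 0 < (ln u).re := fun u => by
    rw [ln_re]
    norm_num
  induction p, hp using Nat.le_induction with
  | base =>
    intro q hq
    have h1 : ∀ u : ℝ, Complex.exp (th * ln u) / ln u ^ q * gp th 1 (ln u) =
        Complex.exp (th * ln u) / ln u ^ (q + 1) - Complex.exp ((0 : ℝ) * ln u) / ln u ^ (q + 1) := by
      intro u
      rw [g_one th (hre u), max_eq_left hth.le]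
      have h2 : Complex.exp (-(th : ℝ) * ln u) = (Complex.exp (th * ln u))⁻¹ := by
        rw [← Complex.exp_neg]
        congr 1
        ring
      have h3 := Complex.exp_ne_zero (th * ln u)
      have h4 := ln_ne u
      rw [h2, pow_succ]
      simp only [ofReal_zero, zero_mul, Complex.exp_zero]
      field_simp
    simp_rw [h1]
    rw [integral_sub (bint q hq th) (bint q hq 0), mul_sub, bval q hq, bval q hq,
      max_eq_left hth.le]
    obtain ⟨r, rfl⟩ := Nat.exists_eq_add_of_le hq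
    simp only [max_self]
    have h5 : (0 : ℝ) ^ (1 + r) = 0 := zero_pow (by omega)
    rw [h5]
    have h6 : (1 + r).factorial = (1 + r) * r.factorial := by
      rw [add_comm 1 r, Nat.factorial_succ]
    rw [h6]
    simp only [zero_div, ofReal_zero, sub_zero, Nat.sub_self, Nat.factorial_zero, Nat.cast_one,
      one_mul, Nat.add_sub_cancel_left]
    congr 2
    push_cast
    ring
  | succ p hp ih =>
    intro q hq
    have h1 : ∀ u : ℝ, Complex.exp (th * ln u) / ln u ^ q * gp th (p + 1) (ln u) =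
        ((th ^ p / (Nat.factorial p : ℝ) : ℝ) : ℂ) * (Complex.exp (th * ln u) / ln u ^ (q + 1)) -
          Complex.exp (th * ln u) / ln u ^ (q + 1) * gp th p (ln u) := by
      intro u
      rw [g_succ th hth p hp (hre u), pow_succ]
      have h4 := ln_ne u
      field_simp
    simp_rw [h1]
    rw [integral_sub ((bint q hq th).const_mul _) (kint th hth p (q + 1) hp (by omega)),
      integral_const_mul, mul_sub, ← mul_assoc, mul_comm (((2 * Real.pi : ℝ) : ℂ)⁻¹), mul_assoc,
      bval q hq, max_eq_left hth.le, ih (q + 1) (by omega)]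
    obtain ⟨r, rfl⟩ := Nat.exists_eq_add_of_le hq
    obtain ⟨s, rfl⟩ := Nat.exists_eq_add_of_le hp
    have h6 : (1 + r).factorial = (1 + r) * r.factorial := by
      rw [add_comm 1 r, Nat.factorial_succ]
    have h7 : (1 + s).factorial = (1 + s) * s.factorial := by
      rw [add_comm 1 s, Nat.factorial_succ]
    have e1 : 1 + s + 1 - 1 = 1 + s := by omega
    have e2 : 1 + r - 1 = r := by omega
    have e3 : 1 + s - 1 = s := by omega
    have e4 : 1 + r + 1 - 1 = 1 + r := by omega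
    have e5 : 1 + s + (1 + r + 1) - 1 = 1 + s + (1 + r) := by omega
    have e6 : 1 + s + 1 + (1 + r) - 1 = 1 + s + (1 + r) := by omega
    rw [e1, e2, e3, e4, e5, e6, h6, h7, ← ofReal_mul, ← ofReal_sub]
    congr 1
    have f1 : (r.factorial : ℝ) ≠ 0 := by positivity
    have f2 : (s.factorial : ℝ) ≠ 0 := by positivity
    have f3 : (1 + r : ℝ) ≠ 0 := by positivity
    have f4 : (1 + s : ℝ) ≠ 0 := by positivity
    have f5 : (1 + s + (1 + r) : ℝ) ≠ 0 := by positivity
    push_cast
    rw [show ((1 : ℝ) + s + (1 + r + 1) - 1) = 1 + s + (1 + r) by ring,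
      show ((1 : ℝ) + s + 1 + (1 + r) - 1) = 1 + s + (1 + r) by ring]
    rw [pow_add]
    field_simp
    ring

end Pool.Agent.Lib.MP_6bc78b_nt.MS.P3.H58
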