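import Pool.Agent.Lib.MP_6bc78b_nt.MS.P3.H58.EvB
import Mathlib.Analysis.Complex.RemovableSingularity
import Mathlib.Analysis.Complex.MeanValue

/-! EV, part C: the averages over the circles of `|A| = 1/4`. -/

set_option autoImplicit false

open Complex Filter Topology MeasureTheory Set

namespace Pool.Agent.Lib.MP_6bc78b_nt.MS.P3.H58

/-! ### Circles -/

lemma cav_eq (f : ℂ → ℂ) : cav f = Real.circleAverage f 0 (1 / 4) := by
  rw [cav, Real.circleAverage_def, Complex.real_smul]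
  congr 1
  · push_cast
    rfl
  · congr 1
    funext θ
    simp [circleMap]

lemma quarter : (0 : ℝ) < 1 / 4 := by norm_num

/-- Mean value. -/
lemma cav_zero (f : ℂ → ℂ) (hf : ∀ A : ℂ, ‖A‖ < 1 / 2 → DifferentiableAt ℂ f A) :
    cav f = f 0 := by
  rw [cav_eq]
  apply DiffContOnCl.circleAverage
  rw [abs_of_pos quarter]
  have h : DifferentiableOn ℂ f (Metric.ball 0 (1 / 2)) := fun A hA =>
    (hf A (by simpa using hA)).differentiableWithinAt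
  exact h.diffContOnCl_ball (Metric.closedBall_subset_ball (by norm_num))

/-- Cauchy formula for the derivative. -/
lemma cav_inv (f : ℂ → ℂ) (hf : ∀ A : ℂ, ‖A‖ < 1 / 2 → DifferentiableAt ℂ f A) :
    cav (fun A => A⁻¹ * f A) = deriv f 0 := by
  rw [cav_eq, Real.circleAverage_eq_circleIntegral (by norm_num)]
  have h : DifferentiableOn ℂ f (Metric.ball 0 (1 / 2)) := fun A hA =>
    (hf A (by simpa using hA)).differentiableWithinAt
  rw [← two_pi_I_inv_smul_circleIntegral_sub_sq_inv_smul_of_differentiable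
    (c := 0) (w₀ := 0) (R := 1 / 4) Metric.isOpen_ball
    (Metric.closedBall_subset_ball (by norm_num)) h (by simp)]
  congr 1
  apply circleIntegral.integral_congr (by norm_num)
  intro z hz
  simp only [sub_zero, smul_eq_mul]
  rw [sq, mul_inv]
  ring

/-- Linearity. -/
lemma cav_lin (a b : ℂ) (f g : ℂ → ℂ)
    (hf : ContinuousOn f (Metric.sphere 0 (1 / 4))) (hg : ContinuousOn g (Metric.sphere 0 (1 / 4))) :
    cav (fun A => a * f A + b * g A) = a * cav f + b * cav g := by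
  have key : ∀ h : ℂ → ℂ, ContinuousOn h (Metric.sphere 0 (1 / 4)) →
      IntervalIntegrable (fun θ : ℝ => h (1 / 4 * Complex.exp (θ * I))) volume 0 (2 * Real.pi) := by
    intro h hh
    apply Continuous.intervalIntegrable
    apply hh.comp_continuous (by fun_prop)
    intro θ
    simp [Complex.norm_exp_ofReal_mul_I]
  rw [cav, intervalIntegral.integral_add ((key f hf).const_mul a) ((key g hg).const_mul b),
    intervalIntegral.integral_const_mul, intervalIntegral.integral_const_mul, cav, cav]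
  ring

/-- The two building blocks. -/
noncomputable def fphi (ε : ℕ) (Z A : ℂ) : ℂ := (A ^ ε)⁻¹ * (Z + A)⁻¹
noncomputable def fpsi (ε : ℕ) (Z A : ℂ) : ℂ := (A ^ ε)⁻¹ * (A * (Z + A)⁻¹)

lemma ZA_ne {Z A : ℂ} (hZ : 1 / 2 ≤ ‖Z‖) (hA : ‖A‖ < 1 / 2) : Z + A ≠ 0 := fun h => by
  have : Z = -A := eq_neg_of_add_eq_zero_left h
  rw [this, norm_neg] at hZ
  linarith

lemma Z_ne {Z : ℂ} (hZ : 1 / 2 ≤ ‖Z‖) : Z ≠ 0 := fun h => by
  rw [h, norm_zero] at hZ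
  norm_num at hZ

lemma dinv {Z : ℂ} (hZ : 1 / 2 ≤ ‖Z‖) (A : ℂ) (hA : ‖A‖ < 1 / 2) :
    DifferentiableAt ℂ (fun A : ℂ => (Z + A)⁻¹) A := by
  apply DifferentiableAt.inv (by fun_prop) (ZA_ne hZ hA)

lemma phi0 {Z : ℂ} (hZ : 1 / 2 ≤ ‖Z‖) : cav (fphi 0 Z) = 1 / Z := by
  have : fphi 0 Z = fun A => (Z + A)⁻¹ := by
    funext A
    simp [fphi]
  rw [this, cav_zero _ (dinv hZ)]
  simp

lemma psi0 {Z : ℂ} (hZ : 1 / 2 ≤ ‖Z‖) : cav (fpsi 0 Z) = 0 := by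
  have : fpsi 0 Z = fun A => A * (Z + A)⁻¹ := by
    funext A
    simp [fpsi]
  have h := cav_zero (fun A => A * (Z + A)⁻¹) fun A hA => differentiableAt_id.mul (dinv hZ A hA)
  rw [this, h]
  simp

lemma phi1 {Z : ℂ} (hZ : 1 / 2 ≤ ‖Z‖) : cav (fphi 1 Z) = -(1 / Z ^ 2) := by
  have : fphi 1 Z = fun A => A⁻¹ * (fun A => (Z + A)⁻¹) A := by
    funext A
    simp [fphi]
  rw [this, cav_inv _ (dinv hZ)]
  have h0 : HasDerivAt (fun A : ℂ => Z + A) 1 0 := (hasDerivAt_id (0 : ℂ)).const_add Z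
  have h1 := h0.inv (by rw [add_zero]; exact Z_ne hZ)
  have h2 : deriv (fun A : ℂ => (Z + A)⁻¹) 0 = _ := h1.deriv
  rw [h2, add_zero]
  ring

lemma psi1 {Z : ℂ} (hZ : 1 / 2 ≤ ‖Z‖) : cav (fpsi 1 Z) = 1 / Z := by
  rw [← phi0 hZ, cav_eq, cav_eq]
  apply Real.circleAverage_congr_sphere
  intro A hA
  have hA0 : A ≠ 0 := by
    intro h
    rw [h] at hA
    simp at hA
  simp only [fphi, fpsi, pow_one, pow_zero, inv_one, one_mul]
  rw [← mul_assoc, inv_mul_cancel₀ hA0, one_mul]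

lemma cphi {Z : ℂ} (hZ : 1 / 2 ≤ ‖Z‖) (ε : ℕ) :
    ContinuousOn (fphi ε Z) (Metric.sphere 0 (1 / 4)) := by
  intro A hA
  have hA1 : ‖A‖ = 1 / 4 := by simpa using hA
  have hA0 : A ≠ 0 := by
    intro h
    rw [h] at hA
    simp at hA
  apply ContinuousAt.continuousWithinAt
  exact ((continuousAt_id.pow ε).inv₀ (pow_ne_zero _ hA0)).mul
    ((dinv hZ A (by rw [hA1]; norm_num)).continuousAt)

lemma cpsi {Z : ℂ} (hZ : 1 / 2 ≤ ‖Z‖) (ε : ℕ) :
    ContinuousOn (fpsi ε Z) (Metric.sphere 0 (1 / 4)) := by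
  intro A hA
  have hA1 : ‖A‖ = 1 / 4 := by simpa using hA
  have hA0 : A ≠ 0 := by
    intro h
    rw [h] at hA
    simp at hA
  apply ContinuousAt.continuousWithinAt
  exact ((continuousAt_id.pow ε).inv₀ (pow_ne_zero _ hA0)).mul
    (continuousAt_id.mul (dinv hZ A (by rw [hA1]; norm_num)).continuousAt)

/-! ### The integrals over `V` -/

lemma PH_cont (th c1 c2 : ℝ) (hth : 0 < th) : Continuous fun u : ℝ => PH th c1 c2 (ln u) := by
  have h0 : (th : ℂ) ≠ 0 := by exact_mod_cast hth.ne'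
  unfold PH
  exact (continuous_const.div (continuous_const.mul (ln_cont.pow 2)) fun u =>
    mul_ne_zero h0 (pow_ne_zero _ (ln_ne u))).add
    (continuous_const.div (continuous_const.mul (ln_cont.pow 3)) fun u =>
    mul_ne_zero (pow_ne_zero _ h0) (pow_ne_zero _ (ln_ne u)))

lemma PH_eq (th c1 c2 : ℝ) (W : ℂ) :
    PH th c1 c2 W = (c1 / th) * (W ^ 2)⁻¹ + (2 * c2 / th ^ 2) * (W ^ 3)⁻¹ := by
  rw [PH, div_mul_eq_div_div, div_mul_eq_div_div, div_eq_mul_inv (c1 / th : ℂ),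
    div_eq_mul_inv (2 * c2 / th ^ 2 : ℂ)]

lemma PH_bd (th c1 c2 : ℝ) (u : ℝ) :
    ‖PH th c1 c2 (ln u)‖ ≤ (‖(c1 / th : ℂ)‖ + ‖(2 * c2 / th ^ 2 : ℂ)‖) * (‖ln u‖ ^ 2)⁻¹ := by
  rw [PH_eq]
  refine (norm_add_le _ _).trans ?_
  rw [norm_mul, norm_mul, norm_inv, norm_inv, norm_pow, norm_pow, add_mul]
  have h3 := ln_two u
  have h4 : (‖ln u‖ ^ 3)⁻¹ ≤ (‖ln u‖ ^ 2)⁻¹ := by
    apply inv_anti₀ (by positivity)
    exact pow_le_pow_right₀ (by linarith) (by norm_num)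
  have := mul_le_mul_of_nonneg_left h4 (norm_nonneg (2 * c2 / th ^ 2 : ℂ))
  linarith

lemma phR (th c1 c2 : ℝ) (hth : 0 < th) (R : ℝ → ℂ) (hR : Continuous R) (C : ℝ)
    (h : ∀ u, ‖R u‖ ≤ C) :
    Integrable (fun u : ℝ => PH th c1 c2 (ln u) * Complex.exp (th * ln u) * R u) := by
  have hC : 0 ≤ C := (norm_nonneg _).trans (h 0)
  refine integ _ (((PH_cont th c1 c2 hth).mul (Complex.continuous_exp.comp
    (continuous_const.mul ln_cont))).mul hR)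
    ((‖(c1 / th : ℂ)‖ + ‖(2 * c2 / th ^ 2 : ℂ)‖) * Real.exp (2 * th) * C) fun u => ?_
  rw [norm_mul, norm_mul, exp_norm]
  have h1 := PH_bd th c1 c2 u
  have h2 : 0 < (‖ln u‖ ^ 2)⁻¹ := by
    have := ln_two u
    positivity
  calc ‖PH th c1 c2 (ln u)‖ * Real.exp (2 * th) * ‖R u‖
      ≤ ((‖(c1 / th : ℂ)‖ + ‖(2 * c2 / th ^ 2 : ℂ)‖) * (‖ln u‖ ^ 2)⁻¹) * Real.exp (2 * th) * C := by
        gcongr
        exact h u
    _ = _ := by ring

lemma lnZ_ne {Z : ℂ} (hZ : Z.re ≤ 1 / 2) (u : ℝ) : ln u - Z ≠ 0 := fun h => by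
  have := congrArg Complex.re h
  rw [sub_re, ln_re] at this
  simp at this
  linarith

lemma lnZ_inv {Z : ℂ} (hZ : Z.re ≤ 1 / 2) (u : ℝ) : ‖ln u - Z‖⁻¹ ≤ (1 + ‖Z‖) * ‖ln u‖⁻¹ := by
  have h0 : 1 ≤ ‖ln u - Z‖ := by
    have := Complex.re_le_norm (ln u - Z)
    rw [sub_re, ln_re] at this
    linarith
  have h1 : ‖ln u‖ ≤ ‖ln u - Z‖ + ‖Z‖ := by
    have := norm_add_le (ln u - Z) Z
    rwa [sub_add_cancel] at this
  have h2 : ‖ln u‖ ≤ (1 + ‖Z‖) * ‖ln u - Z‖ := by nlinarith [norm_nonneg Z]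
  have h3 := ln_two u
  rw [← div_eq_mul_inv, inv_eq_one_div, div_le_div_iff₀ (by linarith) (by linarith)]
  linarith

/-- `J_k`. -/
noncomputable def jk (th c1 c2 : ℝ) (Z W : ℂ) (k : ℕ) : ℂ :=
  ((2 * Real.pi : ℝ) : ℂ)⁻¹ * ∫ u : ℝ, PH th c1 c2 (ln u) * Complex.exp (th * ln u) *
    (ln u ^ k / (ln u * (ln u + W) * (ln u - Z)))

/-- `N_k`. -/
noncomputable def nk (th c1 c2 : ℝ) (W : ℂ) (k : ℕ) : ℂ :=
  ((2 * Real.pi : ℝ) : ℂ)⁻¹ * ∫ u : ℝ, PH th c1 c2 (ln u) * Complex.exp (th * ln u) *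
    (ln u ^ k / (ln u * (ln u + W)))

lemma jint (th c1 c2 : ℝ) (hth : 0 < th) {Z W : ℂ} (hZ : Z.re ≤ 1 / 2) (hW : 0 ≤ W.re) (k : ℕ)
    (hk : k ≤ 3) : Integrable (fun u : ℝ => PH th c1 c2 (ln u) * Complex.exp (th * ln u) *
    (ln u ^ k / (ln u * (ln u + W) * (ln u - Z)))) := by
  apply phR th c1 c2 hth _ _ ((1 + ‖W‖) * (1 + ‖Z‖)) _
  · exact (ln_cont.pow k).div ((ln_cont.mul (ln_cont.add continuous_const)).mul
      (ln_cont.sub continuous_const)) fun u =>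
        mul_ne_zero (mul_ne_zero (ln_ne u) (lnW_ne hW u)) (lnZ_ne hZ u)
  · intro u
    rw [norm_div, norm_mul, norm_mul, norm_pow, div_eq_mul_inv, mul_inv, mul_inv]
    have h1 := lnW_inv hW u
    have h2 := lnZ_inv hZ u
    have h3 := ln_two u
    have h4 : ‖ln u‖ ^ k ≤ ‖ln u‖ ^ 3 := pow_le_pow_right₀ (by linarith) hk
    calc ‖ln u‖ ^ k * (‖ln u‖⁻¹ * ‖ln u + W‖⁻¹ * ‖ln u - Z‖⁻¹)
        ≤ ‖ln u‖ ^ 3 * (‖ln u‖⁻¹ * ((1 + ‖W‖) * ‖ln u‖⁻¹) * ((1 + ‖Z‖) * ‖ln u‖⁻¹)) := by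
          gcongr
      _ = (1 + ‖W‖) * (1 + ‖Z‖) := by
          have : ‖ln u‖ ≠ 0 := by linarith
          field_simp

lemma nint (th c1 c2 : ℝ) (hth : 0 < th) {W : ℂ} (hW : 0 ≤ W.re) (k : ℕ)
    (hk : k ≤ 2) : Integrable (fun u : ℝ => PH th c1 c2 (ln u) * Complex.exp (th * ln u) *
    (ln u ^ k / (ln u * (ln u + W)))) := by
  apply phR th c1 c2 hth _ _ (1 + ‖W‖) _
  · exact (ln_cont.pow k).div (ln_cont.mul (ln_cont.add continuous_const)) fun u =>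
        mul_ne_zero (ln_ne u) (lnW_ne hW u)
  · intro u
    rw [norm_div, norm_mul, norm_pow, div_eq_mul_inv, mul_inv]
    have h1 := lnW_inv hW u
    have h3 := ln_two u
    have h4 : ‖ln u‖ ^ k ≤ ‖ln u‖ ^ 2 := pow_le_pow_right₀ (by linarith) hk
    calc ‖ln u‖ ^ k * (‖ln u‖⁻¹ * ‖ln u + W‖⁻¹)
        ≤ ‖ln u‖ ^ 2 * (‖ln u‖⁻¹ * ((1 + ‖W‖) * ‖ln u‖⁻¹)) := by
          gcongr
      _ = 1 + ‖W‖ := by
          have : ‖ln u‖ ≠ 0 := by linarith
          field_simp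

/-- `J_{k+1} = Z J_k + N_k`. -/
lemma jk_succ (th c1 c2 : ℝ) (hth : 0 < th) {Z W : ℂ} (hZ : Z.re ≤ 1 / 2) (hW : 0 ≤ W.re) (k : ℕ)
    (hk : k ≤ 2) : jk th c1 c2 Z W (k + 1) = Z * jk th c1 c2 Z W k + nk th c1 c2 W k := by
  have hI : (∫ u : ℝ, PH th c1 c2 (ln u) * Complex.exp (th * ln u) *
      (ln u ^ (k + 1) / (ln u * (ln u + W) * (ln u - Z)))) =
      Z * (∫ u : ℝ, PH th c1 c2 (ln u) * Complex.exp (th * ln u) *
        (ln u ^ k / (ln u * (ln u + W) * (ln u - Z)))) +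
      ∫ u : ℝ, PH th c1 c2 (ln u) * Complex.exp (th * ln u) *
        (ln u ^ k / (ln u * (ln u + W))) := by
    rw [← integral_const_mul, ← integral_add ((jint th c1 c2 hth hZ hW k (by omega)).const_mul Z)
      (nint th c1 c2 hth hW k hk)]
    congr 1
    funext u
    have h1 := ln_ne u
    have h2 := lnW_ne hW u
    have h3 := lnZ_ne hZ u
    rw [pow_succ]
    field_simp
    ring
  rw [jk, hI, jk, nk]
  ring

lemma int4 (f3 f2 f1 f0 : ℝ → ℂ) (a b c : ℂ) (h3 : Integrable f3) (h2 : Integrable f2)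
    (h1 : Integrable f1) (h0 : Integrable f0) :
    (∫ u : ℝ, (f3 u + a * f2 u + b * f1 u + c * f0 u)) =
      (∫ u : ℝ, f3 u) + a * (∫ u : ℝ, f2 u) + b * (∫ u : ℝ, f1 u) + c * (∫ u : ℝ, f0 u) := by
  have e2 := h2.const_mul a
  have e1 := h1.const_mul b
  have e0 := h0.const_mul c
  have e32 : Integrable (fun u => f3 u + a * f2 u) := h3.add e2
  have e321 : Integrable (fun u => f3 u + a * f2 u + b * f1 u) := e32.add e1
  rw [integral_add e321 e0, integral_add e32 e1, integral_add h3 e2, integral_const_mul,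
    integral_const_mul, integral_const_mul]

/-- The `V`-integral of `KI` is a polynomial in the `A_i`. -/
lemma VI_eq (th c1 c2 : ℝ) (hth : 0 < th) {Z W : ℂ} (hZ : Z.re ≤ 1 / 2) (hW : 0 ≤ W.re)
    (x y z : ℂ) : ((2 * Real.pi : ℝ) : ℂ)⁻¹ * ∫ u : ℝ, VI th c1 c2 Z ![x, y, z] W u =
      jk th c1 c2 Z W 3 + (x + y + z) * jk th c1 c2 Z W 2 +
        (x * y + y * z + z * x) * jk th c1 c2 Z W 1 + x * y * z * jk th c1 c2 Z W 0 := by
  have hI := int4 _ _ _ _ (x + y + z) (x * y + y * z + z * x) (x * y * z)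
    (jint th c1 c2 hth hZ hW 3 le_rfl) (jint th c1 c2 hth hZ hW 2 (by norm_num))
    (jint th c1 c2 hth hZ hW 1 (by norm_num)) (jint th c1 c2 hth hZ hW 0 (by norm_num))
  have hJ : (fun u : ℝ => VI th c1 c2 Z ![x, y, z] W u) = fun u : ℝ =>
      PH th c1 c2 (ln u) * Complex.exp (th * ln u) *
        (ln u ^ 3 / (ln u * (ln u + W) * (ln u - Z))) +
      (x + y + z) * (PH th c1 c2 (ln u) * Complex.exp (th * ln u) *
        (ln u ^ 2 / (ln u * (ln u + W) * (ln u - Z)))) +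
      (x * y + y * z + z * x) * (PH th c1 c2 (ln u) * Complex.exp (th * ln u) *
        (ln u ^ 1 / (ln u * (ln u + W) * (ln u - Z)))) +
      (x * y * z) * (PH th c1 c2 (ln u) * Complex.exp (th * ln u) *
        (ln u ^ 0 / (ln u * (ln u + W) * (ln u - Z)))) := by
    funext u
    simp only [VI, Fin.prod_univ_three, Matrix.cons_val_zero, Matrix.cons_val_one,
      Matrix.cons_val_two, Matrix.head_cons, Matrix.tail_cons, Pi.add_apply, Matrix.cons_val]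
    ring
  rw [hJ, hI, jk, jk, jk, jk]
  ring

lemma sqB_re {Z : ℂ} (hZ : Z ∈ sqB) : Z.re ≤ 1 / 2 := (abs_le.1 hZ.1).2

lemma sqB_norm {Z : ℂ} (hZ : Z ∈ sqB) : 1 / 2 ≤ ‖Z‖ := by
  rcases hZ.2.2 with h | h
  · rw [← h]
    exact Complex.abs_re_le_norm Z
  · rw [← h]
    exact Complex.abs_im_le_norm Z

/-- The average over the three circles. -/
theorem av3_KI (th c1 c2 : ℝ) (hth : 0 < th) {Z W : ℂ} (hZ : Z ∈ sqB) (hW : 0 ≤ W.re)
    (e : Fin 3 → ℕ) :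
    (av3 fun A => wA e A * KI th c1 c2 Z A W) =
      Complex.exp Z * (Z * (Z + W)) *
        (cav (fphi (e 0) Z) * (cav (fphi (e 1) Z) * (cav (fphi (e 2) Z) * jk th c1 c2 Z W 3 +
            cav (fpsi (e 2) Z) * jk th c1 c2 Z W 2) +
          cav (fpsi (e 1) Z) * (cav (fphi (e 2) Z) * jk th c1 c2 Z W 2 +
            cav (fpsi (e 2) Z) * jk th c1 c2 Z W 1)) +
        cav (fpsi (e 0) Z) * (cav (fphi (e 1) Z) * (cav (fphi (e 2) Z) * jk th c1 c2 Z W 2 +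
            cav (fpsi (e 2) Z) * jk th c1 c2 Z W 1) +
          cav (fpsi (e 1) Z) * (cav (fphi (e 2) Z) * jk th c1 c2 Z W 1 +
            cav (fpsi (e 2) Z) * jk th c1 c2 Z W 0))) := by
  have hn := sqB_norm hZ
  have hr := sqB_re hZ
  set J0 := jk th c1 c2 Z W 0
  set J1 := jk th c1 c2 Z W 1
  set J2 := jk th c1 c2 Z W 2
  set J3 := jk th c1 c2 Z W 3
  set c0 := Complex.exp Z * (Z * (Z + W))
  have e1 : ∀ x y z : ℂ, wA e ![x, y, z] * KI th c1 c2 Z ![x, y, z] W =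
      (c0 * fphi (e 0) Z x * fphi (e 1) Z y * (J3 + (x + y) * J2 + x * y * J1)) * fphi (e 2) Z z +
      (c0 * fphi (e 0) Z x * fphi (e 1) Z y * (J2 + (x + y) * J1 + x * y * J0)) * fpsi (e 2) Z z := by
    intro x y z
    rw [KI, VI_eq th c1 c2 hth hr hW]
    simp only [wA, fphi, fpsi, Fin.prod_univ_three, Matrix.cons_val_zero, Matrix.cons_val_one,
      Matrix.cons_val_two, Matrix.head_cons, Matrix.tail_cons, Matrix.cons_val]
    rw [div_eq_mul_inv, mul_inv, mul_inv]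
    ring
  unfold av3
  simp_rw [e1]
  have e2 : ∀ x y : ℂ, (cav fun z => (c0 * fphi (e 0) Z x * fphi (e 1) Z y *
      (J3 + (x + y) * J2 + x * y * J1)) * fphi (e 2) Z z +
      (c0 * fphi (e 0) Z x * fphi (e 1) Z y * (J2 + (x + y) * J1 + x * y * J0)) * fpsi (e 2) Z z) =
      (c0 * fphi (e 0) Z x * (cav (fphi (e 2) Z) * (J3 + x * J2) +
        cav (fpsi (e 2) Z) * (J2 + x * J1))) * fphi (e 1) Z y +
      (c0 * fphi (e 0) Z x * (cav (fphi (e 2) Z) * (J2 + x * J1) +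
        cav (fpsi (e 2) Z) * (J1 + x * J0))) * fpsi (e 1) Z y := by
    intro x y
    rw [cav_lin _ _ _ _ (cphi hn _) (cpsi hn _)]
    simp only [fphi, fpsi]
    ring
  simp_rw [e2]
  have e3 : ∀ x : ℂ, (cav fun y => (c0 * fphi (e 0) Z x * (cav (fphi (e 2) Z) * (J3 + x * J2) +
        cav (fpsi (e 2) Z) * (J2 + x * J1))) * fphi (e 1) Z y +
      (c0 * fphi (e 0) Z x * (cav (fphi (e 2) Z) * (J2 + x * J1) +
        cav (fpsi (e 2) Z) * (J1 + x * J0))) * fpsi (e 1) Z y) =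
      (c0 * (cav (fphi (e 1) Z) * (cav (fphi (e 2) Z) * J3 + cav (fpsi (e 2) Z) * J2) +
        cav (fpsi (e 1) Z) * (cav (fphi (e 2) Z) * J2 + cav (fpsi (e 2) Z) * J1))) * fphi (e 0) Z x +
      (c0 * (cav (fphi (e 1) Z) * (cav (fphi (e 2) Z) * J2 + cav (fpsi (e 2) Z) * J1) +
        cav (fpsi (e 1) Z) * (cav (fphi (e 2) Z) * J1 + cav (fpsi (e 2) Z) * J0))) *
          fpsi (e 0) Z x := by
    intro x
    rw [cav_lin _ _ _ _ (cphi hn _) (cpsi hn _)]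
    simp only [fphi, fpsi]
    ring
  simp_rw [e3]
  rw [cav_lin _ _ _ _ (cphi hn _) (cpsi hn _)]
  ring

/-- `e = (1,1,1)`. -/
theorem av111 (th c1 c2 : ℝ) (hth : 0 < th) {Z W : ℂ} (hZ : Z ∈ sqB) (hW : 0 ≤ W.re) :
    (av3 fun A => wA ![1, 1, 1] A * KI th c1 c2 Z A W) =
      -(Complex.exp Z * (Z + W) / Z ^ 5 * (Z ^ 2 * nk th c1 c2 W 0 -
        2 * Z * nk th c1 c2 W 1 + nk th c1 c2 W 2)) := by
  have hn := sqB_norm hZ
  have hr := sqB_re hZ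
  have h0 := Z_ne hn
  rw [av3_KI th c1 c2 hth hZ hW]
  simp only [Matrix.cons_val_zero, Matrix.cons_val_one, Matrix.cons_val_two, Matrix.head_cons,
    Matrix.tail_cons, Matrix.cons_val]
  rw [phi1 hn, psi1 hn, jk_succ th c1 c2 hth hr hW 2 le_rfl,
    jk_succ th c1 c2 hth hr hW 1 (by norm_num), jk_succ th c1 c2 hth hr hW 0 (by norm_num)]
  field_simp
  ring

/-- `e = (1,1,0)`. -/
theorem av110 (th c1 c2 : ℝ) (hth : 0 < th) {Z W : ℂ} (hZ : Z ∈ sqB) (hW : 0 ≤ W.re) :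
    (av3 fun A => wA ![1, 1, 0] A * KI th c1 c2 Z A W) =
      -(Complex.exp Z * (Z + W) / Z ^ 4 * (Z * nk th c1 c2 W 1 - nk th c1 c2 W 2)) := by
  have hn := sqB_norm hZ
  have hr := sqB_re hZ
  have h0 := Z_ne hn
  rw [av3_KI th c1 c2 hth hZ hW]
  simp only [Matrix.cons_val_zero, Matrix.cons_val_one, Matrix.cons_val_two, Matrix.head_cons,
    Matrix.tail_cons, Matrix.cons_val]
  rw [phi1 hn, psi1 hn, phi0 hn, psi0 hn, jk_succ th c1 c2 hth hr hW 2 le_rfl,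
    jk_succ th c1 c2 hth hr hW 1 (by norm_num), jk_succ th c1 c2 hth hr hW 0 (by norm_num)]
  field_simp
  ring

/-- `e = (0,1,0)`. -/
theorem av010 (th c1 c2 : ℝ) (hth : 0 < th) {Z W : ℂ} (hZ : Z ∈ sqB) (hW : 0 ≤ W.re) :
    (av3 fun A => wA ![0, 1, 0] A * KI th c1 c2 Z A W) =
      -(Complex.exp Z * (Z + W) / Z ^ 3 * nk th c1 c2 W 2) := by
  have hn := sqB_norm hZ
  have hr := sqB_re hZ
  have h0 := Z_ne hn
  rw [av3_KI th c1 c2 hth hZ hW]
  simp only [Matrix.cons_val_zero, Matrix.cons_val_one, Matrix.cons_val_two, Matrix.head_cons,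
    Matrix.tail_cons, Matrix.cons_val]
  rw [phi1 hn, psi1 hn, phi0 hn, psi0 hn, jk_succ th c1 c2 hth hr hW 2 le_rfl,
    jk_succ th c1 c2 hth hr hW 1 (by norm_num), jk_succ th c1 c2 hth hr hW 0 (by norm_num)]
  field_simp
  ring

end Pool.Agent.Lib.MP_6bc78b_nt.MS.P3.H58
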