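import Pool.Agent.Lib.MP_6bc78b_nt.MS.P3.H58.EvC

/-! EV, part D: the integrals over the square. -/

set_option autoImplicit false

open Complex Filter Topology MeasureTheory Set

namespace Pool.Agent.Lib.MP_6bc78b_nt.MS.P3.H58

lemma uicc {x : ℝ} (hx : x ∈ uIcc (-(1 / 2) : ℝ) (1 / 2)) : |x| ≤ 1 / 2 := by
  rw [uIcc_of_le (by norm_num)] at hx
  exact abs_le.2 ⟨by linarith [hx.1], hx.2⟩

lemma sd1 {x : ℝ} (hx : x ∈ uIcc (-(1 / 2) : ℝ) (1 / 2)) : (x : ℂ) - I / 2 ∈ sqB := by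
  have h1 : ((x : ℂ) - I / 2).re = x := by simp
  have h2 : ((x : ℂ) - I / 2).im = -(1 / 2) := by simp
  refine ⟨by rw [h1]; exact uicc hx, by rw [h2]; norm_num, Or.inr (by rw [h2]; norm_num)⟩

lemma sd2 {x : ℝ} (hx : x ∈ uIcc (-(1 / 2) : ℝ) (1 / 2)) : (x : ℂ) + I / 2 ∈ sqB := by
  have h1 : ((x : ℂ) + I / 2).re = x := by simp
  have h2 : ((x : ℂ) + I / 2).im = 1 / 2 := by simp
  refine ⟨by rw [h1]; exact uicc hx, by rw [h2]; norm_num, Or.inr (by rw [h2]; norm_num)⟩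

lemma sd3 {x : ℝ} (hx : x ∈ uIcc (-(1 / 2) : ℝ) (1 / 2)) : (1 / 2 : ℂ) + x * I ∈ sqB := by
  have h1 : ((1 / 2 : ℂ) + x * I).re = 1 / 2 := by simp
  have h2 : ((1 / 2 : ℂ) + x * I).im = x := by simp
  refine ⟨by rw [h1]; norm_num, by rw [h2]; exact uicc hx, Or.inl (by rw [h1]; norm_num)⟩

lemma sd4 {x : ℝ} (hx : x ∈ uIcc (-(1 / 2) : ℝ) (1 / 2)) : -(1 / 2 : ℂ) + x * I ∈ sqB := by
  have h1 : (-(1 / 2 : ℂ) + x * I).re = -(1 / 2) := by simp
  have h2 : (-(1 / 2 : ℂ) + x * I).im = x := by simp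
  refine ⟨by rw [h1]; norm_num, by rw [h2]; exact uicc hx, Or.inl (by rw [h1]; norm_num)⟩

lemma sqI_congr {f g : ℂ → ℂ} (h : ∀ Z ∈ sqB, f Z = g Z) : sqI f = sqI g := by
  unfold sqI
  rw [intervalIntegral.integral_congr (g := fun x : ℝ => g (x - I / 2)) fun x hx => h _ (sd1 hx),
    intervalIntegral.integral_congr (g := fun x : ℝ => g (x + I / 2)) fun x hx => h _ (sd2 hx),
    intervalIntegral.integral_congr (g := fun x : ℝ => g (1 / 2 + x * I)) fun x hx => h _ (sd3 hx),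
    intervalIntegral.integral_congr (g := fun x : ℝ => g (-(1 / 2) + x * I))
      fun x hx => h _ (sd4 hx)]

section
variable {f : ℂ → ℂ} (hf : ContinuousOn f sqB)
include hf

lemma i1 : IntervalIntegrable (fun x : ℝ => f (x - I / 2)) volume (-(1 / 2)) (1 / 2) :=
  (hf.comp (Continuous.continuousOn (by fun_prop)) fun _ hx => sd1 hx).intervalIntegrable

lemma i2 : IntervalIntegrable (fun x : ℝ => f (x + I / 2)) volume (-(1 / 2)) (1 / 2) :=
  (hf.comp (Continuous.continuousOn (by fun_prop)) fun _ hx => sd2 hx).intervalIntegrable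

lemma i3 : IntervalIntegrable (fun x : ℝ => f (1 / 2 + x * I)) volume (-(1 / 2)) (1 / 2) :=
  (hf.comp (Continuous.continuousOn (by fun_prop)) fun _ hx => sd3 hx).intervalIntegrable

lemma i4 : IntervalIntegrable (fun x : ℝ => f (-(1 / 2) + x * I)) volume (-(1 / 2)) (1 / 2) :=
  (hf.comp (Continuous.continuousOn (by fun_prop)) fun _ hx => sd4 hx).intervalIntegrable

end

lemma sqI_lin (a b : ℂ) {f g : ℂ → ℂ} (hf : ContinuousOn f sqB) (hg : ContinuousOn g sqB) :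
    sqI (fun Z => a * f Z + b * g Z) = a * sqI f + b * sqI g := by
  unfold sqI
  rw [intervalIntegral.integral_add ((i1 hf).const_mul a) ((i1 hg).const_mul b),
    intervalIntegral.integral_add ((i2 hf).const_mul a) ((i2 hg).const_mul b),
    intervalIntegral.integral_add ((i3 hf).const_mul a) ((i3 hg).const_mul b),
    intervalIntegral.integral_add ((i4 hf).const_mul a) ((i4 hg).const_mul b)]
  simp only [intervalIntegral.integral_const_mul]
  ring

lemma sqI_deriv {F f : ℂ → ℂ} (h : ∀ Z ∈ sqB, HasDerivAt F (f Z) Z) (hf : ContinuousOn f sqB) :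
    sqI f = 0 := by
  have h1 : ∫ x in (-(1 / 2) : ℝ)..(1 / 2), f (x - I / 2) =
      F (((1 / 2 : ℝ) : ℂ) - I / 2) - F (((-(1 / 2) : ℝ) : ℂ) - I / 2) := by
    refine intervalIntegral.integral_eq_sub_of_hasDerivAt
      (f := fun x : ℝ => F (x - I / 2)) (fun x hx => ?_) (i1 hf)
    have := ((h _ (sd1 hx)).comp (x : ℂ) ((hasDerivAt_id (x : ℂ)).sub_const (I / 2))).comp_ofReal
    simpa using this
  have h2 : ∫ x in (-(1 / 2) : ℝ)..(1 / 2), f (x + I / 2) =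
      F (((1 / 2 : ℝ) : ℂ) + I / 2) - F (((-(1 / 2) : ℝ) : ℂ) + I / 2) := by
    refine intervalIntegral.integral_eq_sub_of_hasDerivAt
      (f := fun x : ℝ => F (x + I / 2)) (fun x hx => ?_) (i2 hf)
    have := ((h _ (sd2 hx)).comp (x : ℂ) ((hasDerivAt_id (x : ℂ)).add_const (I / 2))).comp_ofReal
    simpa using this
  have h3 : I * ∫ x in (-(1 / 2) : ℝ)..(1 / 2), f (1 / 2 + x * I) =
      F (1 / 2 + ((1 / 2 : ℝ) : ℂ) * I) - F (1 / 2 + ((-(1 / 2) : ℝ) : ℂ) * I) := by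
    rw [← intervalIntegral.integral_const_mul]
    refine intervalIntegral.integral_eq_sub_of_hasDerivAt
      (f := fun x : ℝ => F (1 / 2 + x * I)) (fun x hx => ?_) ((i3 hf).const_mul I)
    have := ((h _ (sd3 hx)).comp (x : ℂ) (((hasDerivAt_id (x : ℂ)).mul_const I).const_add
      (1 / 2))).comp_ofReal
    simpa [mul_comm] using this
  have h4 : I * ∫ x in (-(1 / 2) : ℝ)..(1 / 2), f (-(1 / 2) + x * I) =
      F (-(1 / 2) + ((1 / 2 : ℝ) : ℂ) * I) - F (-(1 / 2) + ((-(1 / 2) : ℝ) : ℂ) * I) := by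
    rw [← intervalIntegral.integral_const_mul]
    refine intervalIntegral.integral_eq_sub_of_hasDerivAt
      (f := fun x : ℝ => F (-(1 / 2) + x * I)) (fun x hx => ?_) ((i4 hf).const_mul I)
    have := ((h _ (sd4 hx)).comp (x : ℂ) (((hasDerivAt_id (x : ℂ)).mul_const I).const_add
      (-(1 / 2)))).comp_ofReal
    simpa [mul_comm] using this
  rw [sqI, h1, h2, h3, h4]
  have e1 : ((1 / 2 : ℝ) : ℂ) - I / 2 = 1 / 2 + ((-(1 / 2) : ℝ) : ℂ) * I := by
    push_cast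
    ring
  have e2 : ((-(1 / 2) : ℝ) : ℂ) - I / 2 = -(1 / 2) + ((-(1 / 2) : ℝ) : ℂ) * I := by
    push_cast
    ring
  have e3 : ((1 / 2 : ℝ) : ℂ) + I / 2 = 1 / 2 + ((1 / 2 : ℝ) : ℂ) * I := by
    push_cast
    ring
  have e4 : ((-(1 / 2) : ℝ) : ℂ) + I / 2 = -(1 / 2) + ((1 / 2 : ℝ) : ℂ) * I := by
    push_cast
    ring
  rw [e1, e2, e3, e4]
  ring

lemma sqI_entire {f : ℂ → ℂ} (hf : Differentiable ℂ f) : sqI f = 0 := by
  have h := integral_boundary_rect_eq_zero_of_differentiableOn f (-(1 / 2) - I / 2) (1 / 2 + I / 2)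
    hf.differentiableOn
  have r1 : (-(1 / 2 : ℂ) - I / 2).re = -(1 / 2) := by simp
  have r2 : (-(1 / 2 : ℂ) - I / 2).im = -(1 / 2) := by simp
  have r3 : ((1 / 2 : ℂ) + I / 2).re = 1 / 2 := by simp
  have r4 : ((1 / 2 : ℂ) + I / 2).im = 1 / 2 := by simp
  rw [r1, r2, r3, r4] at h
  simp only [smul_eq_mul] at h
  rw [sqI, ← h]
  have e1 : ∀ x : ℝ, (x : ℂ) + ((-(1 / 2) : ℝ) : ℂ) * I = x - I / 2 := fun x => by
    push_cast
    ring
  have e2 : ∀ x : ℝ, (x : ℂ) + ((1 / 2 : ℝ) : ℂ) * I = x + I / 2 := fun x => by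
    push_cast
    ring
  simp_rw [e1, e2]
  push_cast
  rfl

lemma real_int : ∫ x in (-(1 / 2) : ℝ)..(1 / 2), (x ^ 2 + 1 / 4)⁻¹ = Real.pi := by
  have h : ∀ x ∈ uIcc (-(1 / 2) : ℝ) (1 / 2),
      HasDerivAt (fun x : ℝ => 2 * Real.arctan (2 * x)) ((x ^ 2 + 1 / 4)⁻¹) x := by
    intro x _
    have h1 := ((Real.hasDerivAt_arctan (2 * x)).comp x
      ((hasDerivAt_id x).const_mul 2)).const_mul 2
    have h3 : x ^ 2 + 1 / 4 ≠ 0 := by positivity
    have h2 : 2 * (1 / (1 + (2 * x) ^ 2) * (2 * 1)) = (x ^ 2 + 1 / 4)⁻¹ := by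
      have : (1 + (2 * x) ^ 2) = 4 * (x ^ 2 + 1 / 4) := by ring
      rw [this]
      field_simp
      norm_num
    rw [← h2]
    exact h1
  rw [intervalIntegral.integral_eq_sub_of_hasDerivAt h]
  · rw [show (2 : ℝ) * (1 / 2) = 1 by norm_num, show (2 : ℝ) * (-(1 / 2)) = -1 by norm_num,
      Real.arctan_neg, Real.arctan_one]
    ring
  · apply Continuous.intervalIntegrable
    exact (by fun_prop : Continuous fun x : ℝ => x ^ 2 + 1 / 4).inv₀ fun x => by positivity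

lemma complex_int : (∫ x in (-(1 / 2) : ℝ)..(1 / 2), (((x : ℂ) ^ 2 + 1 / 4)⁻¹ : ℂ)) =
    (Real.pi : ℂ) := by
  have h : (∫ x in (-(1 / 2) : ℝ)..(1 / 2), (((x ^ 2 + 1 / 4)⁻¹ : ℝ) : ℂ)) = (Real.pi : ℂ) := by
    rw [intervalIntegral.integral_ofReal, real_int]
  rw [← h]
  congr 1
  funext x
  push_cast
  rfl

lemma sqB_ne {Z : ℂ} (hZ : Z ∈ sqB) : Z ≠ 0 := Z_ne (sqB_norm hZ)

lemma sqI_inv : sqI (fun Z => Z⁻¹) = 2 * Real.pi * I := by
  have hc : ContinuousOn (fun Z : ℂ => Z⁻¹) sqB := continuousOn_id.inv₀ fun Z hZ => sqB_ne hZ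
  have h12 : (∫ x in (-(1 / 2) : ℝ)..(1 / 2), ((x : ℂ) - I / 2)⁻¹) -
      (∫ x in (-(1 / 2) : ℝ)..(1 / 2), ((x : ℂ) + I / 2)⁻¹) = I * Real.pi := by
    rw [← intervalIntegral.integral_sub (i1 hc) (i2 hc), ← complex_int,
      ← intervalIntegral.integral_const_mul]
    apply intervalIntegral.integral_congr
    intro x hx
    have h1 := sqB_ne (sd1 hx)
    have h2 := sqB_ne (sd2 hx)
    have h3 : (x : ℂ) ^ 2 + 1 / 4 = (x - I / 2) * (x + I / 2) := by
      linear_combination (1 / 4 : ℂ) * I_sq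
    simp only
    rw [h3, mul_inv, inv_sub_inv h1 h2, div_eq_mul_inv, mul_inv]
    ring
  have h34 : I * (∫ x in (-(1 / 2) : ℝ)..(1 / 2), ((1 / 2 : ℂ) + x * I)⁻¹) -
      I * (∫ x in (-(1 / 2) : ℝ)..(1 / 2), (-(1 / 2 : ℂ) + x * I)⁻¹) = I * Real.pi := by
    rw [← mul_sub, ← intervalIntegral.integral_sub (i3 hc) (i4 hc), ← complex_int]
    congr 1
    apply intervalIntegral.integral_congr
    intro x hx
    have h1 := sqB_ne (sd3 hx)
    have h2 := sqB_ne (sd4 hx)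
    have h3 : (x : ℂ) ^ 2 + 1 / 4 = -((1 / 2 + x * I) * (-(1 / 2) + x * I)) := by
      linear_combination (x : ℂ) ^ 2 * I_sq
    simp only
    rw [h3, inv_neg, mul_inv, inv_sub_inv h1 h2, div_eq_mul_inv, mul_inv]
    ring
  rw [sqI]
  linear_combination h12 + h34

lemma exp_cont (n : ℕ) : ContinuousOn (fun Z : ℂ => Complex.exp Z / Z ^ n) sqB :=
  Complex.continuous_exp.continuousOn.div (continuous_pow n).continuousOn
    fun Z hZ => pow_ne_zero _ (sqB_ne hZ)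

/-- The residues. -/
theorem sqI_exp (n : ℕ) : sqI (fun Z => Complex.exp Z / Z ^ (n + 1)) =
    2 * Real.pi * I / (n.factorial : ℂ) := by
  induction n with
  | zero =>
    have hc : ContinuousOn (fun Z : ℂ => Z⁻¹) sqB := continuousOn_id.inv₀ fun Z hZ => sqB_ne hZ
    have hd : Differentiable ℂ (dslope Complex.exp 0) := by
      rw [← differentiableOn_univ, differentiableOn_dslope univ_mem]
      exact Complex.differentiable_exp.differentiableOn
    have h : sqI (fun Z => Complex.exp Z / Z ^ (0 + 1)) =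
        sqI (fun Z => 1 * Z⁻¹ + 1 * dslope Complex.exp 0 Z) := by
      apply sqI_congr
      intro Z hZ
      have h0 := sqB_ne hZ
      rw [dslope_of_ne _ h0, slope_def_field]
      simp only [zero_add, pow_one, one_mul, sub_zero, Complex.exp_zero]
      field_simp
      ring
    rw [h, sqI_lin 1 1 hc hd.continuous.continuousOn, sqI_entire hd, sqI_inv]
    simp
  | succ n ih =>
    have h := sqI_deriv (F := fun Z => Complex.exp Z * (Z ^ (n + 1))⁻¹)
      (f := fun Z => 1 * (Complex.exp Z / Z ^ (n + 1)) +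
        (-((n : ℂ) + 1)) * (Complex.exp Z / Z ^ (n + 2))) ?_ ?_
    · rw [sqI_lin 1 (-((n : ℂ) + 1)) (exp_cont (n + 1)) (exp_cont (n + 2)), ih] at h
      have hn : ((n : ℂ) + 1) ≠ 0 := by exact_mod_cast Nat.succ_ne_zero n
      have hf : (n.factorial : ℂ) ≠ 0 := by exact_mod_cast Nat.factorial_ne_zero n
      rw [Nat.factorial_succ]
      push_cast
      have h2 : ((n : ℂ) + 1) * sqI (fun Z => Complex.exp Z / Z ^ (n + 2)) =
          2 * Real.pi * I / (n.factorial : ℂ) := by linear_combination -h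
      rw [show n + 1 + 1 = n + 2 from rfl, eq_div_iff (mul_ne_zero hn hf)]
      rw [eq_div_iff hf] at h2
      linear_combination h2
    · intro Z hZ
      have h0 := sqB_ne hZ
      have h1 := (Complex.hasDerivAt_exp Z).mul ((hasDerivAt_pow (n + 1) Z).inv (pow_ne_zero _ h0))
      have h2 : Complex.exp Z * (Z ^ (n + 1))⁻¹ + Complex.exp Z * (-(((n + 1 : ℕ) : ℂ) *
          Z ^ (n + 1 - 1)) / (Z ^ (n + 1)) ^ 2) = 1 * (Complex.exp Z / Z ^ (n + 1)) +
          (-((n : ℂ) + 1)) * (Complex.exp Z / Z ^ (n + 2)) := by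
        rw [Nat.add_sub_cancel]
        push_cast
        field_simp
        ring
      rw [← h2]
      exact h1
    · exact (continuousOn_const.mul (exp_cont (n + 1))).add
        (continuousOn_const.mul (exp_cont (n + 2)))

/-- Four residues. -/
theorem sq4 (a b c d : ℂ) : (2 * Real.pi * I)⁻¹ * sqI (fun Z =>
    a * (Complex.exp Z / Z ^ 2) + b * (Complex.exp Z / Z ^ 3) + c * (Complex.exp Z / Z ^ 4) +
      d * (Complex.exp Z / Z ^ 5)) = a + b / 2 + c / 6 + d / 24 := by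
  have h : sqI (fun Z => a * (Complex.exp Z / Z ^ 2) + b * (Complex.exp Z / Z ^ 3) +
      c * (Complex.exp Z / Z ^ 4) + d * (Complex.exp Z / Z ^ 5)) =
      a * sqI (fun Z => Complex.exp Z / Z ^ 2) + b * sqI (fun Z => Complex.exp Z / Z ^ 3) +
      c * sqI (fun Z => Complex.exp Z / Z ^ 4) + d * sqI (fun Z => Complex.exp Z / Z ^ 5) := by
    have c2 : ContinuousOn (fun Z : ℂ => a * (Complex.exp Z / Z ^ 2) +
        b * (Complex.exp Z / Z ^ 3)) sqB :=
      (continuousOn_const.mul (exp_cont 2)).add (continuousOn_const.mul (exp_cont 3))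
    have c3 : ContinuousOn (fun Z : ℂ => a * (Complex.exp Z / Z ^ 2) +
        b * (Complex.exp Z / Z ^ 3) + c * (Complex.exp Z / Z ^ 4)) sqB :=
      c2.add (continuousOn_const.mul (exp_cont 4))
    have h1 := sqI_lin 1 d c3 (exp_cont 5)
    have h2 := sqI_lin 1 c c2 (exp_cont 4)
    have h3 := sqI_lin a b (exp_cont 2) (exp_cont 3)
    simp only [one_mul] at h1 h2
    rw [h1, h2, h3]
  have hp : (2 * Real.pi * I : ℂ) ≠ 0 := by
    simp [Real.pi_ne_zero]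
  rw [h, sqI_exp 1, sqI_exp 2, sqI_exp 3, sqI_exp 4]
  have f1 : ((Nat.factorial 1 : ℕ) : ℂ) = 1 := by norm_num [Nat.factorial]
  have f2 : ((Nat.factorial 2 : ℕ) : ℂ) = 2 := by norm_num [Nat.factorial]
  have f3 : ((Nat.factorial 3 : ℕ) : ℂ) = 6 := by norm_num [Nat.factorial]
  have f4 : ((Nat.factorial 4 : ℕ) : ℂ) = 24 := by norm_num [Nat.factorial]
  rw [f1, f2, f3, f4]
  field_simp

/-- The square integral for `e = (1,1,1)`. -/
theorem y111 (th c1 c2 : ℝ) (hth : 0 < th) {W : ℂ} (hW : 0 ≤ W.re) :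
    ((2 * Real.pi * I)⁻¹ * sqI fun Z => av3 fun A => wA ![1, 1, 1] A * KI th c1 c2 Z A W) =
      -(nk th c1 c2 W 0 + (W * nk th c1 c2 W 0 - 2 * nk th c1 c2 W 1) / 2 +
        (nk th c1 c2 W 2 - 2 * (W * nk th c1 c2 W 1)) / 6 + W * nk th c1 c2 W 2 / 24) := by
  rw [show -(nk th c1 c2 W 0 + (W * nk th c1 c2 W 0 - 2 * nk th c1 c2 W 1) / 2 +
        (nk th c1 c2 W 2 - 2 * (W * nk th c1 c2 W 1)) / 6 + W * nk th c1 c2 W 2 / 24) =
      -nk th c1 c2 W 0 + -(W * nk th c1 c2 W 0 - 2 * nk th c1 c2 W 1) / 2 +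
        -(nk th c1 c2 W 2 - 2 * (W * nk th c1 c2 W 1)) / 6 + -(W * nk th c1 c2 W 2) / 24 by ring,
    ← sq4]
  congr 1
  apply sqI_congr
  intro Z hZ
  rw [av111 th c1 c2 hth hZ hW]
  have h0 := sqB_ne hZ
  field_simp
  ring

/-- The square integral for `e = (1,1,0)`. -/
theorem y110 (th c1 c2 : ℝ) (hth : 0 < th) {W : ℂ} (hW : 0 ≤ W.re) :
    ((2 * Real.pi * I)⁻¹ * sqI fun Z => av3 fun A => wA ![1, 1, 0] A * KI th c1 c2 Z A W) =
      -(nk th c1 c2 W 1 + (W * nk th c1 c2 W 1 - nk th c1 c2 W 2) / 2 -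
        W * nk th c1 c2 W 2 / 6) := by
  rw [show -(nk th c1 c2 W 1 + (W * nk th c1 c2 W 1 - nk th c1 c2 W 2) / 2 -
        W * nk th c1 c2 W 2 / 6) =
      -nk th c1 c2 W 1 + -(W * nk th c1 c2 W 1 - nk th c1 c2 W 2) / 2 +
        (W * nk th c1 c2 W 2) / 6 + 0 / 24 by ring,
    ← sq4]
  congr 1
  apply sqI_congr
  intro Z hZ
  rw [av110 th c1 c2 hth hZ hW]
  have h0 := sqB_ne hZ
  field_simp
  ring

/-- The square integral for `e = (0,1,0)`. -/
theorem y010 (th c1 c2 : ℝ) (hth : 0 < th) {W : ℂ} (hW : 0 ≤ W.re) :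
    ((2 * Real.pi * I)⁻¹ * sqI fun Z => av3 fun A => wA ![0, 1, 0] A * KI th c1 c2 Z A W) =
      -(nk th c1 c2 W 2 + W * nk th c1 c2 W 2 / 2) := by
  rw [show -(nk th c1 c2 W 2 + W * nk th c1 c2 W 2 / 2) =
      -nk th c1 c2 W 2 + -(W * nk th c1 c2 W 2) / 2 + 0 / 6 + 0 / 24 by ring,
    ← sq4]
  congr 1
  apply sqI_congr
  intro Z hZ
  rw [av010 th c1 c2 hth hZ hW]
  have h0 := sqB_ne hZ
  field_simp
  ring

end Pool.Agent.Lib.MP_6bc78b_nt.MS.P3.H58
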